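import Pool.Agent.W23.SG.Defs
import Pool.Agent.H442R2.BX.Nc

set_option autoImplicit false

namespace Pool.Agent.W137.SG

open Finset
open Pool.Agent.H442R2
open Pool.Agent.H442R2.KF
open Pool.Agent.H442R2.BX
open Pool.Agent.W23.DC
open Pool.Agent.W23.SG
open Pool.Agent.H442R2.BX.TaskNC

namespace TaskNCL

open Classical in
/-- the number of pairs at `n` times the weight -/
noncomputable def g (y : ℝ) (N X : ℕ) (L L' : ℤ × ℕ) (n : ℤ) : ℝ :=
  ∑ d ∈ roughs y X, ∑ d' ∈ (roughs y X).filter (fun d' => ¬ Nat.Coprime d d'),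
    (if ((d : ℤ) ∣ lf L n ∧ (d' : ℤ) ∣ lf L' n) then Wt N n else 0)

theorem g_le (y : ℝ) (N X : ℕ) (L L' : ℤ × ℕ) (n : ℤ) :
    g y N X L L' n ≤ Wt N n * ((rd y X (lf L n)).card * (rd y X (lf L' n)).card) := by
  classical
  unfold g
  calc _ ≤ ∑ d ∈ roughs y X, ∑ d' ∈ roughs y X,
        (if ((d : ℤ) ∣ lf L n ∧ (d' : ℤ) ∣ lf L' n) then Wt N n else 0) := by
        refine sum_le_sum fun d _ => ?_
        refine sum_le_sum_of_subset_of_nonneg (filter_subset _ _) fun d' _ _ => ?_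
        split_ifs
        · exact (Wt_pos N n).le
        · exact le_refl _
    _ = ∑ d ∈ roughs y X, ∑ d' ∈ roughs y X,
        (Wt N n * ((if (d : ℤ) ∣ lf L n then 1 else 0) *
          (if (d' : ℤ) ∣ lf L' n then 1 else 0))) := by
        refine sum_congr rfl fun d _ => sum_congr rfl fun d' _ => ?_
        by_cases h1 : (d : ℤ) ∣ lf L n <;> by_cases h2 : (d' : ℤ) ∣ lf L' n <;> simp [h1, h2]
    _ = Wt N n * ((∑ d ∈ roughs y X, if (d : ℤ) ∣ lf L n then (1:ℝ) else 0) *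
        (∑ d' ∈ roughs y X, if (d' : ℤ) ∣ lf L' n then (1:ℝ) else 0)) := by
        rw [sum_mul_sum, mul_sum]
        refine sum_congr rfl fun d _ => ?_
        rw [mul_sum]
    _ = _ := by
        rw [sum_boole, sum_boole]
        rfl

/-- the determinant of two different primitive forms is not zero -/
theorem det_ne_zero {N : ℕ} {L L' : ℤ × ℕ} (hL : Fo N L) (hL' : Fo N L') (h : L ≠ L') :
    L.1 * L'.2 - L'.1 * L.2 ≠ 0 := by
  intro h0
  apply h
  have e : L.1 * (L'.2 : ℤ) = L'.1 * (L.2 : ℤ) := by linarith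
  have c1 : IsCoprime L.1 (L.2 : ℤ) := Int.isCoprime_iff_gcd_eq_one.2 hL.cop
  have c2 : IsCoprime L'.1 (L'.2 : ℤ) := Int.isCoprime_iff_gcd_eq_one.2 hL'.cop
  have d1 : (L.2 : ℤ) ∣ (L'.2 : ℤ) := by
    have : (L.2 : ℤ) ∣ L.1 * (L'.2 : ℤ) := by rw [e]; exact dvd_mul_left _ _
    exact c1.symm.dvd_of_dvd_mul_left this
  have d2 : (L'.2 : ℤ) ∣ (L.2 : ℤ) := by
    have : (L'.2 : ℤ) ∣ L'.1 * (L.2 : ℤ) := by rw [← e]; exact dvd_mul_left _ _
    exact c2.symm.dvd_of_dvd_mul_left this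
  have e2 : L.2 = L'.2 := Nat.dvd_antisymm (Int.natCast_dvd_natCast.1 d1)
    (Int.natCast_dvd_natCast.1 d2)
  have e1 : L.1 = L'.1 := by
    have hb : (L.2 : ℤ) ≠ 0 := by have := hL.b1; omega
    rw [← e2] at e
    exact mul_right_cancel₀ hb e
  exact Prod.ext e1 e2

theorem det_le {N : ℕ} {L L' : ℤ × ℕ} (hN : 2 ≤ N) (hL : Fo N L) (hL' : Fo N L') :
    (((L.1 * L'.2 - L'.1 * L.2 : ℤ).natAbs : ℕ) : ℝ) ≤ (N : ℝ) ^ 5 := by
  have h2 : (2:ℝ) ≤ N := by exact_mod_cast hN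
  have h1 : (((L.1 * L'.2 - L'.1 * L.2 : ℤ).natAbs : ℕ) : ℝ) =
      |(L.1 : ℝ) * L'.2 - L'.1 * L.2| := by
    rw [Nat.cast_natAbs, Int.cast_abs]
    push_cast
    rfl
  rw [h1]
  have h3 : |(L.1 : ℝ) * L'.2 - L'.1 * L.2| ≤ |(L.1 : ℝ) * L'.2| + |(L'.1 : ℝ) * L.2| := abs_sub _ _
  have h4 : |(L.1 : ℝ) * L'.2| ≤ (N:ℝ) ^ 2 * (N:ℝ) ^ 2 := by
    rw [abs_mul]
    refine mul_le_mul hL.a ?_ (abs_nonneg _) (by positivity)
    rw [abs_of_nonneg (by positivity)]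
    exact hL'.b2
  have h5 : |(L'.1 : ℝ) * L.2| ≤ (N:ℝ) ^ 2 * (N:ℝ) ^ 2 := by
    rw [abs_mul]
    refine mul_le_mul hL'.a ?_ (abs_nonneg _) (by positivity)
    rw [abs_of_nonneg (by positivity)]
    exact hL.b2
  have h6 : (N:ℝ) ^ 2 * (N:ℝ) ^ 2 + (N:ℝ) ^ 2 * (N:ℝ) ^ 2 ≤ (N:ℝ) ^ 5 := by
    have : 0 ≤ (N:ℝ) ^ 4 := by positivity
    nlinarith
  linarith

/-- few large primes divide the determinant -/
theorem card_primes {N : ℕ} {ε : ℝ} (hN : 2 ≤ N) (hε : 0 < ε) (D : ℕ) (hD : D ≠ 0)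
    (hDN : (D : ℝ) ≤ (N : ℝ) ^ 5) (Ls : Finset ℕ)
    (hLs : ∀ l ∈ Ls, l ∈ D.primeFactors ∧ (N : ℝ) ^ ε < l) : (Ls.card : ℝ) ≤ 5 / ε := by
  have hNpos : (0:ℝ) < N := by exact_mod_cast (by omega : 0 < N)
  have hN1 : (1:ℝ) < N := by exact_mod_cast (by omega : 1 < N)
  have h1 : ∏ l ∈ Ls, l ∣ D := by
    refine (prod_dvd_prod_of_subset _ _ _ (fun l hl => (hLs l hl).1)).trans ?_
    exact Nat.prod_primeFactors_dvd D
  have h2 : ((∏ l ∈ Ls, l : ℕ) : ℝ) ≤ (N : ℝ) ^ 5 := by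
    refine le_trans ?_ hDN
    exact_mod_cast Nat.le_of_dvd (Nat.pos_of_ne_zero hD) h1
  have h3 : ((N : ℝ) ^ ε) ^ Ls.card ≤ ((∏ l ∈ Ls, l : ℕ) : ℝ) := by
    push_cast
    rw [← prod_const]
    refine prod_le_prod (fun _ _ => (Real.rpow_pos_of_pos hNpos _).le) fun l hl => ?_
    exact (hLs l hl).2.le
  have h4 : (N : ℝ) ^ (ε * Ls.card) ≤ (N : ℝ) ^ (5 : ℝ) := by
    rw [Real.rpow_mul hNpos.le, Real.rpow_natCast]
    have : (N : ℝ) ^ (5 : ℝ) = (N : ℝ) ^ 5 := by norm_num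
    rw [this]
    exact h3.trans h2
  have h5 : ε * Ls.card ≤ 5 := (Real.rpow_le_rpow_left_iff hN1).1 h4
  rw [le_div_iff₀ hε]
  linarith

/-- the `n` with `l ∣ L(n)` lie in one class modulo `l` -/
theorem class_ex {N : ℕ} {L : ℤ × ℕ} (hL : Fo N L) (l : ℕ) (hl : l.Prime) :
    ∃ r : ℤ, ∀ n : ℤ, (l : ℤ) ∣ lf L n → (l : ℤ) ∣ n - r := by
  by_cases h : ∃ n₁ : ℤ, (l : ℤ) ∣ lf L n₁
  · obtain ⟨n₁, h1⟩ := h
    refine ⟨n₁, fun n hn => ?_⟩
    have h2 : (l : ℤ) ∣ (L.2 : ℤ) * (n - n₁) := by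
      have := dvd_sub hn h1
      unfold lf at this
      have e : L.1 + (L.2 : ℤ) * n - (L.1 + (L.2 : ℤ) * n₁) = (L.2 : ℤ) * (n - n₁) := by ring
      rwa [e] at this
    have hp : Prime (l : ℤ) := Nat.prime_iff_prime_int.1 hl
    rcases hp.dvd_or_dvd h2 with h3 | h3
    · exfalso
      have h4 : (l : ℤ) ∣ L.1 := by
        unfold lf at h1
        have h5 : (l : ℤ) ∣ (L.2 : ℤ) * n₁ := h3.mul_right _
        have := dvd_sub h1 h5
        simpa using this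
      have h6 : (l : ℤ) ∣ ((Int.gcd L.1 L.2 : ℕ) : ℤ) := Int.dvd_coe_gcd h4 h3
      rw [hL.cop] at h6
      have h7 : l ∣ 1 := by exact_mod_cast h6
      exact hl.one_lt.ne' (Nat.dvd_one.1 h7)
    · exact h3
  · exact ⟨0, fun n hn => absurd ⟨n, hn⟩ h⟩

theorem aux1 (w a b x c u : ℝ) (hw : 0 ≤ w) (_ : 0 ≤ a) (hb0 : 0 ≤ b) (hx : 0 ≤ x) (hc : 0 ≤ c)
    (ha : a ≤ x) (hb : b ≤ c * u) (h : w * u ≤ 2) : w * (a * b) ≤ 2 * c * x := by
  have h1 : a * b ≤ x * (c * u) := mul_le_mul ha hb hb0 hx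
  have h2 : w * (a * b) ≤ w * (x * (c * u)) := mul_le_mul_of_nonneg_left h1 hw
  have h3 : w * (x * (c * u)) = (c * x) * (w * u) := by ring
  have h4 : (c * x) * (w * u) ≤ (c * x) * 2 := mul_le_mul_of_nonneg_left h (mul_nonneg hc hx)
  linarith

theorem aux2 (w w2 a b c u t : ℝ) (hw : 0 ≤ w) (_ : 0 ≤ a) (hb0 : 0 ≤ b) (hc : 0 ≤ c) (hu : 0 ≤ u)
    (ha : a ≤ c * u) (hb : b ≤ c * u) (h : u * u ≤ t) (h2 : w * t ≤ 2 * w2) :
    w * (a * b) ≤ 2 * c ^ 2 * w2 := by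
  have h1 : a * b ≤ (c * u) * (c * u) := mul_le_mul ha hb hb0 (mul_nonneg hc hu)
  have h3 : w * (a * b) ≤ w * ((c * u) * (c * u)) := mul_le_mul_of_nonneg_left h1 hw
  have h4 : w * ((c * u) * (c * u)) = c ^ 2 * (w * (u * u)) := by ring
  have h5 : c ^ 2 * (w * (u * u)) ≤ c ^ 2 * (w * t) :=
    mul_le_mul_of_nonneg_left (mul_le_mul_of_nonneg_left h hw) (sq_nonneg c)
  have h6 : c ^ 2 * (w * t) ≤ c ^ 2 * (2 * w2) := mul_le_mul_of_nonneg_left h2 (sq_nonneg c)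
  linarith

end TaskNCL

open TaskNCL in
theorem NCL (hPBL : St_PBL) (hGS : BX.St_GS) : St_NCL := by
  classical
  intro ε hε
  obtain ⟨N₀, C0, hC0, hpb⟩ := hPBL ε hε
  have hK : 0 < 5 / ε := by positivity
  refine ⟨4 * C0 + 24 * (5 / ε) * C0 ^ 2 + 4 * N₀ * (N₀ + 1) + 1, by positivity, ?_⟩
  intro N X hN hXN L L' hL hL' hLL
  have hN1 : 1 ≤ N := by omega
  have hNpos : (0:ℝ) < N := by exact_mod_cast (by omega : 0 < N)
  set y := (N : ℝ) ^ ε with hy
  have hy0 : 0 < y := Real.rpow_pos_of_pos hNpos _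
  have hpow0 : 0 ≤ (N : ℝ) ^ (1 - ε) := Real.rpow_nonneg hNpos.le _
  -- X = 0
  rcases Nat.eq_zero_or_pos X with hX0 | hX0
  · have : roughs y X = ∅ := by
      rw [← card_eq_zero]
      have := card_roughs y X
      omega
    rw [this, sum_empty]
    positivity
  have hX1 : (1:ℝ) ≤ X := by exact_mod_cast hX0
  by_cases hsmall : N < N₀
  · -- small N
    have h1 : ∀ d d' : ℕ, ∑' n : ℤ, (if ((d : ℤ) ∣ lf L n ∧ (d' : ℤ) ∣ lf L' n) then Wt N n else 0) ≤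
        4 * ((N:ℝ) + 1) := by
      intro d d'
      have h2 := (hGS N hN1).2 1 0 le_rfl
      simp only [Nat.cast_one, div_one] at h2
      refine le_trans ?_ h2
      refine Summable.tsum_le_tsum (fun n => ?_) (summable_ite N hN1 _) (summable_ite N hN1 _)
      rw [if_pos (one_dvd (n - 0))]
      split_ifs
      · exact le_refl _
      · exact (Wt_pos N n).le
    have hcard : ((roughs y X).card : ℝ) ≤ X := by exact_mod_cast card_roughs y X
    have hNN : (N:ℝ) ≤ N₀ := by exact_mod_cast hsmall.le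
    have hXN' : (X:ℝ) ≤ N := by exact_mod_cast hXN
    calc _ ≤ ∑ d ∈ roughs y X,
          ∑ d' ∈ (roughs y X).filter (fun d' => ¬ Nat.Coprime d d'), 4 * ((N:ℝ) + 1) :=
          sum_le_sum fun d _ => sum_le_sum fun d' _ => h1 d d'
      _ ≤ ∑ d ∈ roughs y X, (X:ℝ) * (4 * ((N:ℝ) + 1)) := by
          refine sum_le_sum fun d _ => ?_
          rw [sum_const, nsmul_eq_mul]
          refine mul_le_mul_of_nonneg_right ?_ (by positivity)
          refine le_trans ?_ hcard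
          exact_mod_cast card_filter_le _ _
      _ = ((roughs y X).card : ℝ) * ((X:ℝ) * (4 * ((N:ℝ) + 1))) := by
          rw [sum_const, nsmul_eq_mul]
      _ ≤ (N₀:ℝ) * ((X:ℝ) * (4 * ((N₀:ℝ) + 1))) := by
          refine mul_le_mul (hcard.trans (hXN'.trans hNN)) ?_ (by positivity) (by positivity)
          gcongr
      _ = 4 * N₀ * (N₀ + 1) * X := by ring
      _ ≤ (4 * C0 + 24 * (5 / ε) * C0 ^ 2 + 4 * N₀ * (N₀ + 1) + 1) * ((N : ℝ) ^ (1 - ε) + X) := by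
          have e1 : (4 * (N₀:ℝ) * (N₀ + 1)) ≤
              4 * C0 + 24 * (5 / ε) * C0 ^ 2 + 4 * N₀ * (N₀ + 1) + 1 := by
            have : 0 ≤ 4 * C0 + 24 * (5 / ε) * C0 ^ 2 := by positivity
            linarith
          refine mul_le_mul e1 (by linarith) (by positivity) (by positivity)
  push Not at hsmall
  -- exchange the sums
  have hex : ∑ d ∈ roughs y X,
      ∑ d' ∈ (roughs y X).filter (fun d' => ¬ Nat.Coprime d d'),
        ∑' n : ℤ, (if ((d : ℤ) ∣ lf L n ∧ (d' : ℤ) ∣ lf L' n) then Wt N n else 0) =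
      ∑' n : ℤ, g y N X L L' n := by
    calc _ = ∑ d ∈ roughs y X, ∑' n : ℤ,
          ∑ d' ∈ (roughs y X).filter (fun d' => ¬ Nat.Coprime d d'),
          (if ((d : ℤ) ∣ lf L n ∧ (d' : ℤ) ∣ lf L' n) then Wt N n else 0) := by
          refine sum_congr rfl fun d _ => ?_
          rw [Summable.tsum_finsetSum fun d' _ => summable_ite N hN1 _]
      _ = _ := by
          unfold g
          rw [Summable.tsum_finsetSum fun d _ => summable_sum fun d' _ => summable_ite N hN1 _]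
  have hex' : ∑ d ∈ BX.roughs ((N : ℝ) ^ ε) X,
      ∑ d' ∈ (BX.roughs ((N : ℝ) ^ ε) X).filter (fun d' => ¬ Nat.Coprime d d'),
        ∑' n : ℤ, (if ((d : ℤ) ∣ lf L n ∧ (d' : ℤ) ∣ lf L' n) then Wt N n else 0) =
      ∑' n : ℤ, g y N X L L' n := by
    convert hex using 4
  refine (le_of_eq hex').trans ?_
  -- the primes
  set D : ℕ := (L.1 * L'.2 - L'.1 * L.2 : ℤ).natAbs with hDdef
  have hD0 : D ≠ 0 := by
    rw [hDdef]
    exact Int.natAbs_ne_zero.2 (det_ne_zero hL hL' hLL)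
  set Ls := D.primeFactors.filter (fun l : ℕ => y < l) with hLs
  have hLcard : (Ls.card : ℝ) ≤ 5 / ε := by
    refine card_primes hN hε D hD0 (det_le hN hL hL') Ls fun l hl => ?_
    rw [hLs, mem_filter] at hl
    exact hl
  have hcls : ∀ l : ℕ, ∃ r : ℤ, l.Prime → ∀ n : ℤ, (l : ℤ) ∣ lf L n → (l : ℤ) ∣ n - r := by
    intro l
    by_cases hl : l.Prime
    · obtain ⟨r, hr⟩ := class_ex hL l hl
      exact ⟨r, fun _ => hr⟩
    · exact ⟨0, fun h => absurd h hl⟩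
  choose r hr using hcls
  have hX' : ∀ m : ℤ, ((rd y X m).card : ℝ) ≤ X := by
    intro m
    have : (rd y X m).card ≤ X := (card_filter_le _ _).trans (card_roughs y X)
    exact_mod_cast this
  -- the zeros
  set n₀ : ℤ := -L.1 / L.2 with hn₀
  set n₁ : ℤ := -L'.1 / L'.2 with hn₁
  have hz : ∀ n : ℤ, lf L n = 0 → n = n₀ := by
    intro n hn
    have hb : (L.2 : ℤ) ≠ 0 := by have := hL.b1; omega
    unfold lf at hn
    rw [hn₀]
    have : -L.1 = n * (L.2 : ℤ) := by linarith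
    rw [this, Int.mul_ediv_cancel _ hb]
  have hz' : ∀ n : ℤ, lf L' n = 0 → n = n₁ := by
    intro n hn
    have hb : (L'.2 : ℤ) ≠ 0 := by have := hL'.b1; omega
    unfold lf at hn
    rw [hn₁]
    have : -L'.1 = n * (L'.2 : ℤ) := by linarith
    rw [this, Int.mul_ediv_cancel _ hb]
  have hnot : ∀ n : ℤ, ¬ (lf L n = 0 ∧ lf L' n = 0) := by
    rintro n ⟨h1, h2⟩
    apply det_ne_zero hL hL' hLL
    unfold lf at h1 h2
    have e1 : L.1 = -(L.2 * n) := by linarith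
    have e2 : L'.1 = -(L'.2 * n) := by linarith
    rw [e1, e2]
    ring
  -- pointwise bound
  have hpt : ∀ n : ℤ, g y N X L L' n ≤ (if n = n₀ then 2 * C0 * X else 0) +
      (if n = n₁ then 2 * C0 * X else 0) +
      ∑ l ∈ Ls, 2 * C0 ^ 2 * (if (l : ℤ) ∣ n - r l then Wt (2 * N) n else 0) := by
    intro n
    have hsum0 : 0 ≤ ∑ l ∈ Ls, 2 * C0 ^ 2 * (if (l : ℤ) ∣ n - r l then Wt (2 * N) n else 0) := by
      refine sum_nonneg fun l _ => mul_nonneg (by positivity) ?_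
      split_ifs
      · exact (Wt_pos _ n).le
      · exact le_refl _
    have hW1 := Wt_le_one (2 * N) n
    have hW0 := (Wt_pos N n).le
    have h4 := (hGS N hN1).1 n
    set t := 1 + |(n:ℝ)| / N with ht
    have ht1 : 1 ≤ t := by
      have : 0 ≤ |(n:ℝ)| / N := by positivity
      linarith
    have ht4 : t ^ (1 / 4 : ℝ) ≤ t := by
      calc t ^ (1 / 4 : ℝ) ≤ t ^ (1 : ℝ) :=
            Real.rpow_le_rpow_of_exponent_le ht1 (by norm_num)
        _ = t := Real.rpow_one _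
    have hWt4 : Wt N n * t ^ (1 / 4 : ℝ) ≤ 2 := by
      calc Wt N n * t ^ (1 / 4 : ℝ) ≤ Wt N n * t := mul_le_mul_of_nonneg_left ht4 hW0
        _ ≤ 2 * Wt (2 * N) n := h4
        _ ≤ 2 := by linarith
    have h0 := g_le y N X L L' n
    by_cases hna : lf L n = 0
    · have hna' : lf L' n ≠ 0 := fun h => hnot n ⟨hna, h⟩
      have h1 := (hpb N X hsmall hXN L' hL').1 n hna'
      have h4 := hX' (lf L n)
      rw [if_pos (hz n hna)]
      have h5 : 0 ≤ (if n = n₁ then 2 * C0 * (X:ℝ) else 0) := by split_ifs <;> positivity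
      have h6 : Wt N n * (((rd y X (lf L n)).card : ℝ) * ((rd y X (lf L' n)).card : ℝ)) ≤
          2 * C0 * X := by
        exact aux1 _ _ _ _ _ _ hW0 (Nat.cast_nonneg _) (Nat.cast_nonneg _) (Nat.cast_nonneg _) hC0.le
          h4 h1 hWt4
      linarith
    by_cases hna' : lf L' n = 0
    · have h1 := (hpb N X hsmall hXN L hL).1 n hna
      have h4 := hX' (lf L' n)
      rw [if_pos (hz' n hna')]
      have h5 : 0 ≤ (if n = n₀ then 2 * C0 * (X:ℝ) else 0) := by split_ifs <;> positivity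
      have h6 : Wt N n * (((rd y X (lf L n)).card : ℝ) * ((rd y X (lf L' n)).card : ℝ)) ≤
          2 * C0 * X := by
        rw [mul_comm ((rd y X (lf L n)).card : ℝ)]
        exact aux1 _ _ _ _ _ _ hW0 (Nat.cast_nonneg _) (Nat.cast_nonneg _) (Nat.cast_nonneg _) hC0.le
          h4 h1 hWt4
      linarith
    have hp0 : 0 ≤ (if n = n₀ then 2 * C0 * (X:ℝ) else 0) := by split_ifs <;> positivity
    have hp1 : 0 ≤ (if n = n₁ then 2 * C0 * (X:ℝ) else 0) := by split_ifs <;> positivity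
    suffices hS : g y N X L L' n ≤
        ∑ l ∈ Ls, 2 * C0 ^ 2 * (if (l : ℤ) ∣ n - r l then Wt (2 * N) n else 0) by linarith
    by_cases hf0 : g y N X L L' n = 0
    · rw [hf0]; exact hsum0
    -- a common prime factor
    obtain ⟨d, hd, hd2⟩ : ∃ d ∈ roughs y X,
        ∑ d' ∈ (roughs y X).filter (fun d' => ¬ Nat.Coprime d d'),
        (if ((d : ℤ) ∣ lf L n ∧ (d' : ℤ) ∣ lf L' n) then Wt N n else 0) ≠ 0 := by
      by_contra hc
      push Not at hc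
      exact hf0 (sum_eq_zero hc)
    obtain ⟨d', hd', hd2'⟩ := exists_ne_zero_of_sum_ne_zero hd2
    have hdv : (d : ℤ) ∣ lf L n ∧ (d' : ℤ) ∣ lf L' n := by
      by_contra hc
      exact hd2' (if_neg hc)
    rw [mem_filter] at hd'
    obtain ⟨l, hl, hldd⟩ := Nat.exists_prime_and_dvd (n := Nat.gcd d d') (fun h => hd'.2 h)
    have hld : l ∣ d := hldd.trans (Nat.gcd_dvd_left _ _)
    have hld' : l ∣ d' := hldd.trans (Nat.gcd_dvd_right _ _)
    have hRd : Rough y d := by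
      have := hd
      unfold roughs at this
      exact (mem_filter.1 this).2
    have hlr := rough_prime y d l hRd hl hld
    have hla : (l : ℤ) ∣ lf L n := (Int.natCast_dvd_natCast.2 hld).trans hdv.1
    have hla' : (l : ℤ) ∣ lf L' n := (Int.natCast_dvd_natCast.2 hld').trans hdv.2
    have hlaa : (l : ℤ) ∣ L.1 * L'.2 - L'.1 * L.2 := by
      have := dvd_sub (hla.mul_left (L'.2 : ℤ)) (hla'.mul_left (L.2 : ℤ))
      unfold lf at this
      have e : (L'.2 : ℤ) * (L.1 + (L.2 : ℤ) * n) - (L.2 : ℤ) * (L'.1 + (L'.2 : ℤ) * n) =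
          L.1 * L'.2 - L'.1 * L.2 := by ring
      rwa [e] at this
    have hlL : l ∈ Ls := by
      rw [hLs, mem_filter]
      refine ⟨Nat.mem_primeFactors.2 ⟨hl, ?_, hD0⟩, hlr.1⟩
      rw [hDdef]
      exact Int.natCast_dvd.1 hlaa
    have h1 := (hpb N X hsmall hXN L hL).1 n hna
    have h2 := (hpb N X hsmall hXN L' hL').1 n hna'
    have h3 : t ^ (1 / 4 : ℝ) * t ^ (1 / 4 : ℝ) ≤ t := by
      rw [← Real.rpow_add (by linarith)]
      calc t ^ (1 / 4 + 1 / 4 : ℝ) ≤ t ^ (1 : ℝ) :=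
            Real.rpow_le_rpow_of_exponent_le ht1 (by norm_num)
        _ = t := Real.rpow_one _
    calc g y N X L L' n ≤ Wt N n * (((rd y X (lf L n)).card : ℝ) * ((rd y X (lf L' n)).card : ℝ)) := h0
      _ ≤ 2 * C0 ^ 2 * Wt (2 * N) n :=
          aux2 _ _ _ _ _ _ _ hW0 (Nat.cast_nonneg _) (Nat.cast_nonneg _) hC0.le
            (Real.rpow_nonneg (by linarith) _) h1 h2 h3 h4
      _ = 2 * C0 ^ 2 * (if (l : ℤ) ∣ n - r l then Wt (2 * N) n else 0) := by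
          rw [if_pos (hr l hl n hla)]
      _ ≤ _ := single_le_sum (f := fun l : ℕ =>
          2 * C0 ^ 2 * (if (l : ℤ) ∣ n - r l then Wt (2 * N) n else 0)) (fun l _ => by
            refine mul_nonneg (by positivity) ?_
            split_ifs
            · exact (Wt_pos _ n).le
            · exact le_refl _) hlL
  -- summability
  have hs1 : ∀ (b : ℤ) (v : ℝ), Summable (fun n : ℤ => if n = b then v else 0) := by
    intro b v
    refine summable_of_ne_finset_zero (s := {b}) fun n hn => ?_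
    rw [mem_singleton] at hn
    exact if_neg hn
  have hs2 : Summable (fun n : ℤ => ∑ l ∈ Ls,
      2 * C0 ^ 2 * (if (l : ℤ) ∣ n - r l then Wt (2 * N) n else 0)) :=
    summable_sum fun l _ => (summable_ite (2 * N) (by omega) _).mul_left _
  have hsf : Summable (fun n : ℤ => g y N X L L' n) := by
    unfold g
    exact summable_sum fun d _ => summable_sum fun d' _ => summable_ite N hN1 _
  have htot := Summable.tsum_le_tsum hpt hsf
    (((hs1 n₀ (2 * C0 * X)).add (hs1 n₁ (2 * C0 * X))).add hs2)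
  refine htot.trans ?_
  rw [Summable.tsum_add ((hs1 n₀ (2 * C0 * X)).add (hs1 n₁ (2 * C0 * X))) hs2,
    Summable.tsum_add (hs1 n₀ (2 * C0 * X)) (hs1 n₁ (2 * C0 * X)), tsum_ite_eq, tsum_ite_eq,
    Summable.tsum_finsetSum fun l _ => (summable_ite (2 * N) (by omega) _).mul_left _]
  have hl : ∀ l ∈ Ls, ∑' n : ℤ, 2 * C0 ^ 2 * (if (l : ℤ) ∣ n - r l then Wt (2 * N) n else 0) ≤
      2 * C0 ^ 2 * (4 * (2 * (N:ℝ) ^ (1 - ε) + 1)) := by
    intro l hlL
    rw [tsum_mul_left]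
    refine mul_le_mul_of_nonneg_left ?_ (by positivity)
    rw [hLs, mem_filter] at hlL
    have hlp : l.Prime := Nat.prime_of_mem_primeFactors hlL.1
    have hly : y < l := hlL.2
    have h3 := (hGS (2 * N) (by omega)).2 l (r l) hlp.one_le
    refine h3.trans ?_
    have h4 : ((2 * N : ℕ) : ℝ) / l ≤ 2 * (N:ℝ) ^ (1 - ε) := by
      push_cast
      rw [mul_div_assoc]
      refine mul_le_mul_of_nonneg_left ?_ (by norm_num)
      rw [Real.rpow_sub hNpos, Real.rpow_one]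
      exact div_le_div_of_nonneg_left hNpos.le hy0 hly.le
    linarith
  have hsumL : ∑ l ∈ Ls, ∑' n : ℤ, 2 * C0 ^ 2 * (if (l : ℤ) ∣ n - r l then Wt (2 * N) n else 0) ≤
      (5 / ε) * (2 * C0 ^ 2 * (4 * (2 * (N:ℝ) ^ (1 - ε) + 1))) := by
    calc _ ≤ ∑ l ∈ Ls, 2 * C0 ^ 2 * (4 * (2 * (N:ℝ) ^ (1 - ε) + 1)) := sum_le_sum hl
      _ = (Ls.card : ℝ) * (2 * C0 ^ 2 * (4 * (2 * (N:ℝ) ^ (1 - ε) + 1))) := by
          rw [sum_const, nsmul_eq_mul]
      _ ≤ _ := by gcongr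
  have hfin : 2 * C0 * X + 2 * C0 * X + (5 / ε) * (2 * C0 ^ 2 * (4 * (2 * (N:ℝ) ^ (1 - ε) + 1))) ≤
      (4 * C0 + 24 * (5 / ε) * C0 ^ 2 + 4 * N₀ * (N₀ + 1) + 1) * ((N : ℝ) ^ (1 - ε) + X) := by
    generalize 5 / ε = K at hK ⊢
    generalize (N : ℝ) ^ (1 - ε) = P at hpow0 ⊢
    have e1 : 0 ≤ K * C0 ^ 2 := by positivity
    have e2 : K * C0 ^ 2 * 1 ≤ K * C0 ^ 2 * X := mul_le_mul_of_nonneg_left hX1 e1
    have e3 : 0 ≤ K * C0 ^ 2 * P := mul_nonneg e1 hpow0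
    have e4 : 0 ≤ (4 * (N₀:ℝ) * (N₀ + 1) + 1) * (P + X) := by positivity
    have e5 : 0 ≤ C0 * P := mul_nonneg hC0.le hpow0
    have e6 : 2 * C0 * X + 2 * C0 * X + K * (2 * C0 ^ 2 * (4 * (2 * P + 1))) =
        4 * (C0 * X) + 16 * (K * C0 ^ 2 * P) + 8 * (K * C0 ^ 2 * 1) := by ring
    have e7 : (4 * C0 + 24 * K * C0 ^ 2 + 4 * N₀ * (N₀ + 1) + 1) * (P + X) =
        4 * (C0 * P) + 4 * (C0 * X) + 24 * (K * C0 ^ 2 * P) + 24 * (K * C0 ^ 2 * X) +
          (4 * (N₀:ℝ) * (N₀ + 1) + 1) * (P + X) := by ring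
    have e8 : 0 ≤ K * C0 ^ 2 * X := by positivity
    rw [e6, e7]
    linarith
  linarith

end Pool.Agent.W137.SG
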